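import Pool.Agent.Run7.h601.ZN.Stm

/-!
# Project ZN, piece FIN: contradiction from the divisibility of the product of degrees by `n!`
-/

set_option autoImplicit false

namespace Run7.h272.ZN

open Finset Pool.Agent.Run7.h601.ZN

/-- a positive degree -/
theorem isDeg_ne_zero {n k f : ℕ} {l : Fin k → ℕ} (hl : StrictMono l) (h : IsDeg n l f) :
    f ≠ 0 := by
  rintro rfl
  have h1 : (0 : ℤ) < (n.factorial : ℤ) * ∏ i, ∏ j ∈ Ioi i, ((l j : ℤ) - l i) := by
    apply mul_pos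
    · exact_mod_cast n.factorial_pos
    · apply Finset.prod_pos
      intro i _
      apply Finset.prod_pos
      intro j hj
      have : l i < l j := hl (Finset.mem_Ioi.1 hj)
      have : (l i : ℤ) < l j := by exact_mod_cast this
      linarith
  unfold IsDeg at h
  rw [← h] at h1
  simp at h1

/-- `(p - 1) v_p(n!) ≤ n` -/
theorem val_fact_le (p n : ℕ) (hp : p.Prime) :
    ((p : ℤ) - 1) * (padicValNat p n.factorial : ℤ) ≤ n := by
  haveI := Fact.mk hp
  have h := sub_one_mul_padicValNat_factorial (p := p) n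
  have h1 : (p - 1) * padicValNat p n.factorial ≤ n := by
    rw [h]; exact Nat.sub_le _ _
  have h2 : (((p - 1 : ℕ) : ℤ)) * (padicValNat p n.factorial : ℤ) ≤ n := by exact_mod_cast h1
  rwa [Nat.cast_sub hp.one_le, Nat.cast_one] at h2

/-- valuation of a product -/
theorem val_prod (p : ℕ) (hp : p.Prime) {ι : Type} (s : Finset ι) (g : ι → ℕ)
    (hg : ∀ x ∈ s, g x ≠ 0) :
    padicValNat p (∏ x ∈ s, g x) = ∑ x ∈ s, padicValNat p (g x) := by
  classical
  haveI := Fact.mk hp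
  induction s using Finset.induction_on with
  | empty => simp
  | insert a s ha ih =>
    rw [Finset.prod_insert ha, Finset.sum_insert ha, padicValNat.mul (hg a (by simp)) ?_, ih]
    · intro x hx; exact hg x (by simp [hx])
    · rw [Finset.prod_ne_zero_iff]
      intro x hx; exact hg x (by simp [hx])

/-- the bound for one prime and one vector -/
theorem one_bound (p : ℕ) (hp : 0 < p) (k : ℕ) (l : Fin k → ℕ) :
    2 * (∑ j ∈ range p, (j : ℤ) * cc p l j) + p * dd p l ≤ 2 * (p : ℤ) * dd p l + (p : ℤ) ^ 3 := by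
  have h1 : 2 * (∑ j ∈ range p, (j : ℤ) * cc p l j) ≤ dd p l + (p : ℤ) ^ 3 := by
    have h2 : ∀ j ∈ range p, 2 * ((j : ℤ) * cc p l j) ≤ cc p l j ^ 2 + (p : ℤ) ^ 2 := by
      intro j hj
      have hj' : (j : ℤ) < p := by exact_mod_cast Finset.mem_range.1 hj
      have hj0 : (0 : ℤ) ≤ j := by positivity
      nlinarith [sq_nonneg ((j : ℤ) - cc p l j)]
    calc 2 * (∑ j ∈ range p, (j : ℤ) * cc p l j)
        = ∑ j ∈ range p, 2 * ((j : ℤ) * cc p l j) := by rw [Finset.mul_sum]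
      _ ≤ ∑ j ∈ range p, (cc p l j ^ 2 + (p : ℤ) ^ 2) := Finset.sum_le_sum h2
      _ = dd p l + (p : ℤ) ^ 3 := by
        rw [Finset.sum_add_distrib, Finset.sum_const, Finset.card_range, nsmul_eq_mul]
        unfold dd
        ring
  have h3 : 0 ≤ dd p l := by
    unfold dd
    exact Finset.sum_nonneg (fun j _ => sq_nonneg _)
  have h4 : (1 : ℤ) ≤ p := by exact_mod_cast hp
  nlinarith

theorem t_FIN : S_FIN := by
  intro hVAL hCOR hSIE N0
  obtain ⟨N, hN⟩ : ∃ N, N = N0 + 1 := ⟨_, rfl⟩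
  have hinf : {p : ℕ | p.Prime ∧ 2 * N ≤ p}.Infinite := by
    rw [Set.infinite_iff_exists_gt] 
    intro a
    obtain ⟨p, hp1, hp2⟩ := Nat.exists_infinite_primes (a + 1 + 2 * N)
    exact ⟨p, ⟨hp2, by omega⟩, by omega⟩
  obtain ⟨P, hPs, hPc⟩ := hinf.exists_subset_card_eq (17 * N)
  have hPp : ∀ p ∈ P, p.Prime := fun p hp => (hPs hp).1
  have hPN : ∀ p ∈ P, 2 * N ≤ p := fun p hp => (hPs hp).2
  obtain ⟨M, hM⟩ : ∃ M, M = ∏ p ∈ P, p := ⟨_, rfl⟩
  have hMpos : 0 < M := by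
    rw [hM]; exact Finset.prod_pos (fun p hp => (hPp p hp).pos)
  refine ⟨M, 32 * M ^ 2 + ∑ p ∈ P, p ^ 3 + 1, hMpos, ?_⟩
  intro n k hn hMk L hLN hL hdiv
  -- index the list
  have hch : ∀ i : Fin L.length, ∃ l : Fin k → ℕ, StrictMono l ∧
      ∑ a, l a = n + k.choose 2 ∧ IsDeg n l (L[i.1]) := by
    intro i
    exact hL _ (List.getElem_mem _)
  choose l hl1 hl2 hl3 using hch
  obtain ⟨t, ht⟩ : ∃ t, t = L.length := ⟨_, rfl⟩
  have htpos : 0 < L.length := by
    rcases Nat.eq_zero_or_pos L.length with h0 | h0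
    · exfalso
      have : L = [] := List.length_eq_zero_iff.1 h0
      rw [this] at hdiv
      simp only [List.prod_nil, Nat.dvd_one] at hdiv
      have : n ≤ n.factorial := Nat.self_le_factorial n
      have : 1 < n := by
        have : 1 ≤ 32 * M ^ 2 := by nlinarith
        omega
      omega
    · exact h0
  have hLprod : L.prod = ∏ i : Fin L.length, L[i.1] := (Fin.prod_univ_getElem L).symm
  have hLne : L.prod ≠ 0 := by
    rw [hLprod, Finset.prod_ne_zero_iff]
    intro i _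
    exact isDeg_ne_zero (hl1 i) (hl3 i)
  -- one prime
  have key : ∀ p ∈ P, (n : ℤ) ≤ ∑ i : Fin L.length, (2 * ((p : ℤ) * dd p (l i)) + (p : ℤ) ^ 3) := by
    intro p hp
    have hpp := hPp p hp
    haveI := Fact.mk hpp
    have hpk : p ∣ k := (Finset.dvd_prod_of_mem _ hp).trans (hM ▸ hMk)
    have hp2 := hPN p hp
    have v1 : padicValNat p n.factorial ≤ padicValNat p L.prod :=
      (padicValNat_dvd_iff_le hLne).1 (pow_padicValNat_dvd.trans hdiv)
    have v2 : (padicValNat p L.prod : ℤ) = ∑ i : Fin L.length, (padicValNat p (L[i.1]) : ℤ) := by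
      rw [hLprod, val_prod p hpp _ _ (fun i _ => isDeg_ne_zero (hl1 i) (hl3 i))]
      push_cast
      rfl
    have v3 : ∀ i : Fin L.length, (padicValNat p (L[i.1]) : ℤ) ≤
        (padicValNat p n.factorial : ℤ) - wt p (l i) := by
      intro i
      have := hVAL n k (L[i.1]) p (l i) hpp (hl1 i) (hl3 i)
      linarith
    have v4 : (padicValNat p n.factorial : ℤ) ≤
        (L.length : ℤ) * (padicValNat p n.factorial : ℤ) - ∑ i, wt p (l i) := by
      calc (padicValNat p n.factorial : ℤ) ≤ (padicValNat p L.prod : ℤ) := by exact_mod_cast v1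
        _ = ∑ i : Fin L.length, (padicValNat p (L[i.1]) : ℤ) := v2
        _ ≤ ∑ i : Fin L.length, ((padicValNat p n.factorial : ℤ) - wt p (l i)) :=
            Finset.sum_le_sum (fun i _ => v3 i)
        _ = _ := by
            rw [Finset.sum_sub_distrib, Finset.sum_const, Finset.card_univ, Fintype.card_fin,
              nsmul_eq_mul]
    have v5 := val_fact_le p n hpp
    have v6 : ∑ i : Fin L.length, (2 * (∑ j ∈ range p, (j : ℤ) * cc p (l i) j) + p * dd p (l i)) =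
        2 * (L.length : ℤ) * n - 2 * p * ∑ i, wt p (l i) := by
      have : ∀ i : Fin L.length, 2 * (∑ j ∈ range p, (j : ℤ) * cc p (l i) j) + p * dd p (l i) =
          2 * (n : ℤ) - 2 * p * wt p (l i) := by
        intro i
        have := hCOR n k p (l i) hpp.pos hpk (hl2 i)
        linarith
      rw [Finset.sum_congr rfl (fun i _ => this i), Finset.sum_sub_distrib, Finset.sum_const,
        Finset.card_univ, Fintype.card_fin, nsmul_eq_mul, ← Finset.mul_sum]
      ring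
    have v7 : ∑ i : Fin L.length, (2 * (∑ j ∈ range p, (j : ℤ) * cc p (l i) j) + p * dd p (l i)) ≤
        ∑ i : Fin L.length, (2 * ((p : ℤ) * dd p (l i)) + (p : ℤ) ^ 3) := by
      apply Finset.sum_le_sum
      intro i _
      have := one_bound p hpp.pos k (l i)
      linarith
    -- combine
    obtain ⟨S, hS⟩ : ∃ S, S = ∑ i : Fin L.length, (2 * ((p : ℤ) * dd p (l i)) + (p : ℤ) ^ 3) :=
      ⟨_, rfl⟩
    obtain ⟨W, hW⟩ : ∃ W, W = ∑ i : Fin L.length, wt p (l i) := ⟨_, rfl⟩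
    obtain ⟨V, hV⟩ : ∃ V, V = (padicValNat p n.factorial : ℤ) := ⟨_, rfl⟩
    rw [← hS] at v7 ⊢
    rw [← hW] at v4 v6
    rw [← hV] at v4 v5
    rw [v6] at v7
    obtain ⟨T, hT⟩ : ∃ T, T = (L.length : ℤ) := ⟨_, rfl⟩
    rw [← hT] at v4 v7
    have hT1 : 1 ≤ T := by rw [hT]; exact_mod_cast htpos
    have hTN : T + 1 ≤ N := by
      rw [hT, hN]; push_cast; 
      have : (L.length : ℤ) ≤ N0 := by exact_mod_cast hLN
      linarith
    have hpN : 2 * (N : ℤ) ≤ p := by exact_mod_cast hp2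
    have hn0 : (0 : ℤ) ≤ n := by positivity
    -- W ≤ (T - 1) V
    have w1 : ((p : ℤ) - 1) * W ≤ (T - 1) * n := by
      have h1 : W ≤ (T - 1) * V := by linarith
      have hp1 : (0 : ℤ) ≤ (p : ℤ) - 1 := by linarith
      calc ((p : ℤ) - 1) * W ≤ ((p : ℤ) - 1) * ((T - 1) * V) := by
            exact mul_le_mul_of_nonneg_left h1 hp1
        _ = (T - 1) * (((p : ℤ) - 1) * V) := by ring
        _ ≤ (T - 1) * n := mul_le_mul_of_nonneg_left v5 (by linarith)
    have hp1 : (0 : ℤ) < (p : ℤ) - 1 := by linarith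
    have w2 : ((p : ℤ) - 1) * n ≤ ((p : ℤ) - 1) * S := by
      have h1 : ((p : ℤ) - 1) * (2 * T * n - 2 * p * W) ≤ ((p : ℤ) - 1) * S :=
        mul_le_mul_of_nonneg_left v7 hp1.le
      have h2 : 2 * (p : ℤ) * (((p : ℤ) - 1) * W) ≤ 2 * (p : ℤ) * ((T - 1) * n) :=
        mul_le_mul_of_nonneg_left w1 (by positivity)
      have h3 : ((p : ℤ) - 1) * n ≤ 2 * ((p : ℤ) - T) * n :=
        mul_le_mul_of_nonneg_right (by linarith) hn0
      nlinarith
    exact le_of_mul_le_mul_left w2 hp1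
  -- sum over the primes
  have hsum : ∑ p ∈ P, (n : ℤ) ≤
      ∑ p ∈ P, ∑ i : Fin L.length, (2 * ((p : ℤ) * dd p (l i)) + (p : ℤ) ^ 3) :=
    Finset.sum_le_sum key
  rw [Finset.sum_comm] at hsum
  have hMk' : (∏ p ∈ P, p) ∣ k := hM ▸ hMk
  have hper : ∀ i : Fin L.length,
      ∑ p ∈ P, (2 * ((p : ℤ) * dd p (l i)) + (p : ℤ) ^ 3) ≤
        16 * n + 32 * (M : ℤ) ^ 2 + ∑ p ∈ P, (p : ℤ) ^ 3 := by
    intro i
    rw [Finset.sum_add_distrib, ← Finset.mul_sum]
    have h := hSIE P n k (l i) hPp hMk' (hl1 i) (hl2 i)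
    rw [← hM] at h
    linarith
  have hfin : ∑ i : Fin L.length, ∑ p ∈ P, (2 * ((p : ℤ) * dd p (l i)) + (p : ℤ) ^ 3) ≤
      (L.length : ℤ) * (16 * n + 32 * (M : ℤ) ^ 2 + ∑ p ∈ P, (p : ℤ) ^ 3) := by
    calc _ ≤ ∑ i : Fin L.length, (16 * (n : ℤ) + 32 * (M : ℤ) ^ 2 + ∑ p ∈ P, (p : ℤ) ^ 3) :=
          Finset.sum_le_sum (fun i _ => hper i)
      _ = _ := by
          rw [Finset.sum_const, Finset.card_univ, Fintype.card_fin, nsmul_eq_mul]
  rw [Finset.sum_const, hPc, nsmul_eq_mul] at hsum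
  have hX : (0 : ℤ) ≤ 16 * n + 32 * (M : ℤ) ^ 2 + ∑ p ∈ P, (p : ℤ) ^ 3 := by positivity
  have hLN' : (L.length : ℤ) ≤ N := by
    have : (L.length : ℤ) ≤ N0 := by exact_mod_cast hLN
    rw [hN]; push_cast; linarith
  have h5 : (N : ℤ) * (17 * n) ≤
      (N : ℤ) * (16 * n + 32 * (M : ℤ) ^ 2 + ∑ p ∈ P, (p : ℤ) ^ 3) := by
    calc (N : ℤ) * (17 * n) = ((17 * N : ℕ) : ℤ) * n := by push_cast; ring
      _ ≤ _ := hsum
      _ ≤ _ := hfin
      _ ≤ _ := mul_le_mul_of_nonneg_right hLN' hX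
  have hNpos : (0 : ℤ) < N := by rw [hN]; positivity
  have h6 := le_of_mul_le_mul_left h5 hNpos
  have h7 : (32 * M ^ 2 + ∑ p ∈ P, p ^ 3 + 1 : ℕ) < (n : ℤ) := by exact_mod_cast hn
  push_cast at h7
  linarith

end Run7.h272.ZN
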